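import Pool.Agent.FCF.FinMain

/-!
# MP_ada1bb_an: homogenization of forced curvature flow above depinning in the plane

Full answer to the question: in dimension 2, for every periodic or stationary ergodic medium `c` and
every `F > sup_e F_{*,s}(e, c)`, homogenization holds in every direction.
-/

set_option autoImplicit false

namespace Pool.Agent.Results.MP_ada1bb_an.Homogenization

open Pool.Agent.VSC (V)
open Pool.Agent.FCF
open MeasureTheory

/-- The level set function exists and is unique; homogenization holds for periodic media, and for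
stationary ergodic media, when the force exceeds the supremum over all directions of the critical
forces (for random media: of the almost sure critical forces, with one null set per direction, or
almost surely of the critical forces of the realization, with one null set for all directions). -/
theorem result :
    (∀ f : V → ℝ, BddLip f → ∀ e : V, ‖e‖ = 1 → (∃ u, IsSol f e u) ∧
      ∀ u v, IsSol f e u → IsSol f e v → ∀ (x : V) (t : ℝ), 0 ≤ t → u (x, t) = v (x, t)) ∧
    (∀ c : V → ℝ, BddLip c → IsPer c → ∀ F : ℝ,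
      (⨆ e : {e : V // ‖e‖ = 1}, Fcrit e.1 c) < F →
      ∃ a : V → ℝ, ∀ e : V, ‖e‖ = 1 → 0 < a e ∧ Homog c F e (a e)) ∧
    (∀ (Ω : Type*) [MeasurableSpace Ω] (P : Measure Ω) (τ : V → Ω → Ω) (c : Ω → V → ℝ),
      StatErg P τ c → ∀ F : ℝ,
      ((⨆ e : {e : V // ‖e‖ = 1}, essSup (fun ω => Fcrit e.1 (c ω)) P) < F →
        ∃ a : V → ℝ, ∀ e : V, ‖e‖ = 1 → 0 < a e ∧ ∀ᵐ ω ∂P, Homog (c ω) F e (a e)) ∧
      ((∀ᵐ ω ∂P, (⨆ e : {e : V // ‖e‖ = 1}, Fcrit e.1 (c ω)) < F) →
        ∃ a : V → ℝ, (∀ e : V, ‖e‖ = 1 → 0 < a e) ∧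
          ∀ᵐ ω ∂P, ∀ e : V, ‖e‖ = 1 → Homog (c ω) F e (a e))) := by
  refine ⟨fun f hf e he => ?_, fun c hc hp F hF => Last.periodic_main hc hp hF,
    fun Ω _ P τ c h F => ⟨fun hF => Last.random_i h hF, fun hF => Last.random_ii h hF⟩⟩
  obtain ⟨M, L, hm⟩ := Last.med_frc hf 0
  have h0 : frc f 0 = f := by funext x; simp [frc]
  rw [h0] at hm
  exact ⟨sol_exists hm he, fun u v hu hv x t ht => sol_unique hm he hu hv x ht⟩

end Pool.Agent.Results.MP_ada1bb_an.Homogenization
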